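import Pool.Agent.H.MP_9aae89_an.D

namespace Pool.Agent.Results.MP_9aae89_an.No

open MeasureTheory Pool.Agent.H.MP_9aae89_an
open scoped ContDiff

theorem result : ∃ (f : ℝ → ℝ) (u : EuclideanSpace ℝ (Fin 3) → ℝ)
    (Φ : EuclideanSpace ℝ (Fin 3) ≃ₜ EuclideanSpace ℝ (Fin 3)) (α β : ℝ),
    ContDiff ℝ ∞ f ∧ HasCompactSupport f ∧ (∀ t, 0 ≤ f t) ∧ 0 < ∫ t, f t ∧
    ContDiff ℝ 2 u ∧ (∀ x, Laplacian.laplacian u x = f (u x)) ∧
    0 < α ∧ 0 ≤ β ∧ α ^ 2 - β ^ 2 = 2 * ∫ t, f t ∧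
    (∀ x, u x = α * max (Φ x 0) 0 - β * max (-Φ x 0) 0) ∧
    ∀ (R : EuclideanSpace ℝ (Fin 3) ≃ᵃⁱ[ℝ] EuclideanSpace ℝ (Fin 3)) (V : ℝ → ℝ),
      ¬∀ x, u (R x) = V (x 0) := by
  obtain ⟨f, w, f1, f2, f3, f4, w2, w0, w1, w3⟩ := fixed
  have p : 0 < 1 + 2 * ∫ t, f t := by positivity
  obtain ⟨Φ, hΦ⟩ := homeo (w2.differentiable two_ne_zero) w1 (Real.sqrt_pos.2 p) one_pos
  refine ⟨f, fun x => hh x + w x, Φ, _, 1, f1, f2, f3, f4, hh_cd.add w2, fun x => ?_,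
    Real.sqrt_pos.2 p, zero_le_one, by rw [Real.sq_sqrt p.le]; ring, hΦ, fun R V h => ?_⟩
  · rw [← w3, ← zero_add (Laplacian.laplacian w x), ← hh_lap x]
    exact hh_cd.contDiffAt.laplacian_add w2.contDiffAt
  · refine notone w0 ((EuclideanSpace.proj (𝕜 := ℝ) (0 : Fin 3)).toLinearMap ∘ₗ
      R.symm.linearIsometryEquiv.toLinearEquiv.toLinearMap) (fun t => V (t + R.symm 0 0))
      fun x => ?_
    have := h (R.symm x)
    rw [R.apply_symm_apply] at this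
    have e := R.symm.map_vadd 0 x
    rw [vadd_eq_add, add_zero] at e
    rw [e] at this
    exact this

end Pool.Agent.Results.MP_9aae89_an.No
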